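import Pool.Agent.Helper92_SBG.All

/-!
# MP_02cd89_al, Q1: the subgroup separability function of a torsion free nilpotent group need not be
equivalent to a power `n ^ K` with a natural number `K`.

The group is `Gp 100` of `Pool/Agent/Helper92_SBG/Defs.lean`.  It is nilpotent of class 5.  Its
subgroup separability function `Sub` satisfies `Sub ^ 2 ≈ n ^ 10950915`, and `10950915` is odd.
-/

namespace Pool.Agent.Results.MP_02cd89_al.NonIntegerExponent

open Pool.Agent.SBG

/-- There is a finitely generated torsion free nilpotent group `G` such that for every finite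
generating set `S` the square of the subgroup separability function is equivalent to
`n ^ 10950915`, and the subgroup separability function is not equivalent to `n ^ K` for any natural
number `K`. -/
theorem result : ∃ (G : Type) (_ : Group G), Group.FG G ∧ Group.IsNilpotent G ∧
    (∀ (g : G) (n : ℕ), 0 < n → g ^ n = 1 → g = 1) ∧
    ∀ S : Finset G, Subgroup.closure (S : Set G) = ⊤ →
      Equ (fun n => Sub (S : Set G) n ^ 2) (fun n => (n : ℕ∞) ^ 10950915) ∧
      ∀ K : ℕ, ¬ Equ (Sub (S : Set G)) (fun n => (n : ℕ∞) ^ K) :=
  H92.final

end Pool.Agent.Results.MP_02cd89_al.NonIntegerExponent
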